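import Mathlib.Tactic.Abel
import Mathlib.Algebra.BigOperators.Pi
import Mathlib.Algebra.Notation.Lemmas
import Mathlib.CategoryTheory.Category.Basic
import Mathlib.Algebra.Field.ZMod
import Mathlib.Combinatorics.SimpleGraph.Basic

-- ======== part 0: formerly Pool.Agent.MP_3b4e7c_co.Up.Chains
section MrgPart0

/-! Chains over the field with two elements, acyclicity up to a size, deletion and link,
and the topological Hall theorem. -/

namespace Pool.Agent.MP_3b4e7c_co.Up

open Finset

variable {V : Type*} [DecidableEq V] [Fintype V]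

/-- boundary of a chain -/
def bd (c : Finset V → ZMod 2) : Finset V → ZMod 2 := fun F => ∑ x ∈ Fᶜ, c (insert x F)

/-- the chain lives on faces of `D` of size `s` -/
def Supp (D : Set (Finset V)) (s : ℕ) (c : Finset V → ZMod 2) : Prop :=
  ∀ F, c F ≠ 0 → F ∈ D ∧ F.card = s

/-- all cycles of size below `k` bound -/
def Acyc (k : ℕ) (D : Set (Finset V)) : Prop :=
  ∀ s < k, ∀ c, Supp D s c → bd c = 0 → ∃ d, Supp D (s + 1) d ∧ bd d = c

def cone (e : V) (c : Finset V → ZMod 2) : Finset V → ZMod 2 :=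
  fun F => if e ∈ F then c (F.erase e) else 0

def p0 (e : V) (c : Finset V → ZMod 2) : Finset V → ZMod 2 :=
  fun F => if e ∈ F then 0 else c F

def p1 (e : V) (c : Finset V → ZMod 2) : Finset V → ZMod 2 :=
  fun F => if e ∈ F then 0 else c (insert e F)

def del (e : V) (D : Set (Finset V)) : Set (Finset V) := {F | F ∈ D ∧ e ∉ F}

def lk (e : V) (D : Set (Finset V)) : Set (Finset V) := {F | e ∉ F ∧ insert e F ∈ D}

def Down (D : Set (Finset V)) : Prop := ∀ F ∈ D, ∀ G, G ⊆ F → G ∈ D

theorem z2 (a : ZMod 2) : a + a = 0 := CharTwo.add_self_eq_zero a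

theorem ch2 (c : Finset V → ZMod 2) : c + c = 0 := by
  funext F; exact z2 _

theorem bd_add (c d : Finset V → ZMod 2) : bd (c + d) = bd c + bd d := by
  funext F; simp [bd, sum_add_distrib]

theorem bd_zero : bd (0 : Finset V → ZMod 2) = 0 := by
  funext F; simp [bd]

theorem bd_sum {ι : Type*} (s : Finset ι) (c : ι → Finset V → ZMod 2) :
    bd (∑ i ∈ s, c i) = ∑ i ∈ s, bd (c i) := by
  classical
  induction s using Finset.induction_on with
  | empty => simp [bd_zero]
  | insert a s ha ih => rw [sum_insert ha, sum_insert ha, bd_add, ih]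

omit [Fintype V] in
theorem sum_sym {ι : Type*} [DecidableEq ι] (s : Finset ι) (f : ι → ι → ZMod 2)
    (hf : ∀ x y, f x y = f y x) : ∑ x ∈ s, ∑ y ∈ s.erase x, f x y = 0 := by
  induction s using Finset.induction_on with
  | empty => simp
  | insert a s ha ih =>
    rw [sum_insert ha, erase_insert ha]
    have : ∀ x ∈ s, ∑ y ∈ (insert a s).erase x, f x y = f a x + ∑ y ∈ s.erase x, f x y := by
      intro x hx
      have hax : a ≠ x := fun h => ha (h ▸ hx)
      rw [erase_insert_of_ne hax, sum_insert (fun h => ha (mem_of_mem_erase h)), hf x a]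
    rw [sum_congr rfl this, sum_add_distrib, ih, add_zero, z2]

theorem bd_bd (c : Finset V → ZMod 2) : bd (bd c) = 0 := by
  funext F
  have : ∀ x ∈ Fᶜ, bd c (insert x F) = ∑ y ∈ Fᶜ.erase x, c (insert y (insert x F)) := by
    intro x _
    simp only [bd, compl_insert]
  simp only [Pi.zero_apply]
  rw [bd, sum_congr rfl this]
  exact sum_sym _ _ (fun x y => by rw [insert_comm])

omit [Fintype V] in
theorem decomp (e : V) (c : Finset V → ZMod 2) : c = p0 e c + cone e (p1 e c) := by
  funext F
  by_cases h : e ∈ F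
  · simp [p0, cone, p1, h, insert_erase h]
  · simp [p0, cone, h]

theorem bd_van (e : V) (c : Finset V → ZMod 2) (hc : ∀ F, e ∈ F → c F = 0) :
    ∀ F, e ∈ F → bd c F = 0 := by
  intro F hF
  exact sum_eq_zero (fun x _ => hc _ (mem_insert_of_mem hF))

theorem bd_cone (e : V) (c : Finset V → ZMod 2) (hc : ∀ F, e ∈ F → c F = 0) :
    bd (cone e c) = c + cone e (bd c) := by
  funext F
  by_cases h : e ∈ F
  · have h1 : ∀ x ∈ Fᶜ, cone e c (insert x F) = c (insert x (F.erase e)) := by
      intro x hx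
      have hxe : x ≠ e := fun hh => (mem_compl.1 hx) (hh ▸ h)
      simp only [cone, mem_insert_of_mem h, if_true]
      rw [erase_insert_of_ne hxe]
    have h2 : (F.erase e)ᶜ = insert e Fᶜ := by
      ext x; simp only [mem_compl, mem_erase, mem_insert]; tauto
    simp only [Pi.add_apply, hc F h, zero_add]
    rw [bd, sum_congr rfl h1]
    simp only [cone, h, if_true, bd, h2]
    rw [sum_insert (by simp [h]), hc _ (mem_insert_self _ _), zero_add]
  · simp only [Pi.add_apply, cone, h, if_false, add_zero, bd]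
    rw [sum_eq_single e]
    · simp [erase_insert h]
    · intro x _ hx
      have : e ∉ insert x F := by
        simp only [mem_insert, not_or]; exact ⟨hx.symm, h⟩
      simp [this]
    · intro he; exact absurd (mem_compl.2 h) he

theorem parts (e : V) (c : Finset V → ZMod 2) (hc : bd c = 0) :
    bd (p1 e c) = 0 ∧ bd (p0 e c) = p1 e c := by
  have v0 : ∀ F, e ∈ F → p0 e c F = 0 := fun F h => by simp [p0, h]
  have v1 : ∀ F, e ∈ F → p1 e c F = 0 := fun F h => by simp [p1, h]
  have h := hc
  rw [decomp e c, bd_add, bd_cone e _ v1] at h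
  have h1 : bd (p1 e c) = 0 := by
    funext G
    by_cases hG : e ∈ G
    · exact bd_van e _ v1 G hG
    · have := congrFun h (insert e G)
      simp only [Pi.add_apply, bd_van e _ v0 _ (mem_insert_self e G),
        v1 _ (mem_insert_self e G), cone, mem_insert_self, if_true, erase_insert hG, zero_add,
        Pi.zero_apply] at this
      exact this
  refine ⟨h1, ?_⟩
  have h2 : cone e (0 : Finset V → ZMod 2) = 0 := by funext F; simp [cone]
  rw [h1, h2, add_zero] at h
  calc bd (p0 e c) = bd (p0 e c) + (p1 e c + p1 e c) := by rw [ch2, add_zero]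
    _ = p1 e c := by rw [← add_assoc, h, zero_add]

omit [DecidableEq V] [Fintype V] in
theorem Supp.add {D : Set (Finset V)} {s : ℕ} {c d : Finset V → ZMod 2} (hc : Supp D s c)
    (hd : Supp D s d) : Supp D s (c + d) := by
  intro F hF
  by_cases h : c F = 0
  · refine hd F (fun h' => hF ?_)
    simp [h, h']
  · exact hc F h

omit [DecidableEq V] [Fintype V] in
theorem Supp.mono {D E : Set (Finset V)} {s : ℕ} {c : Finset V → ZMod 2} (hc : Supp D s c)
    (h : D ⊆ E) : Supp E s c := fun F hF => ⟨h (hc F hF).1, (hc F hF).2⟩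

omit [Fintype V] in
theorem Supp.cone {D : Set (Finset V)} {s : ℕ} {c : Finset V → ZMod 2} {e : V}
    (hc : Supp (lk e D) s c) : Supp D (s + 1) (cone e c) := by
  intro F hF
  by_cases h : e ∈ F
  · simp only [Up.cone, h, if_true] at hF
    obtain ⟨h1, h2⟩ := hc _ hF
    have h3 := h1.2
    rw [insert_erase h] at h3
    refine ⟨h3, ?_⟩
    rw [← card_erase_add_one h, h2]
  · simp [Up.cone, h] at hF

theorem acyc_cone {D : Set (Finset V)} (e : V) (he : ∀ F ∈ D, insert e F ∈ D) (k : ℕ) :
    Acyc k D := by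
  intro s _ c hc hb
  have v0 : ∀ F, e ∈ F → p0 e c F = 0 := fun F h => by simp [p0, h]
  refine ⟨cone e (p0 e c), Supp.cone ?_, ?_⟩
  · intro F hF
    by_cases h : e ∈ F
    · exact absurd (v0 F h) hF
    · simp only [p0, h, if_false] at hF
      exact ⟨⟨h, he F (hc F hF).1⟩, (hc F hF).2⟩
  · rw [bd_cone e _ v0, (parts e c hb).2, ← decomp]

theorem acyc_void (k : ℕ) : Acyc k (∅ : Set (Finset V)) := by
  intro s _ c hc _
  refine ⟨0, fun F hF => absurd rfl hF, ?_⟩
  rw [bd_zero]
  funext F
  by_contra h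
  exact (hc F (fun h' => h h'.symm)).1

theorem acyc_dl {D : Set (Finset V)} (hD : Down D) (e : V) (k : ℕ) (h0 : Acyc k (del e D))
    (h1 : Acyc (k - 1) (lk e D)) : Acyc k D := by
  intro s hs c hc hb
  have v0 : ∀ F, e ∈ F → p0 e c F = 0 := fun F h => by simp [p0, h]
  have s0 : Supp (del e D) s (p0 e c) := by
    intro F hF
    by_cases h : e ∈ F
    · exact absurd (v0 F h) hF
    · simp only [p0, h, if_false] at hF
      exact ⟨⟨(hc F hF).1, h⟩, (hc F hF).2⟩
  have sub : del e D ⊆ D := fun F hF => hF.1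
  rcases s with _ | s
  · have : p0 e c = c := by
      funext F
      by_cases h : e ∈ F
      · rw [v0 F h]
        by_contra h'
        have := (hc F (fun hh => h' hh.symm)).2
        rw [card_eq_zero] at this
        simp [this] at h
      · simp [p0, h]
    rw [this] at s0
    obtain ⟨d, hd, hd'⟩ := h0 0 hs c s0 hb
    exact ⟨d, hd.mono sub, hd'⟩
  · have s1 : Supp (lk e D) s (p1 e c) := by
      intro F hF
      by_cases h : e ∈ F
      · simp [p1, h] at hF
      · simp only [p1, h, if_false] at hF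
        obtain ⟨a, b⟩ := hc _ hF
        rw [card_insert_of_notMem h] at b
        exact ⟨⟨h, a⟩, by omega⟩
    obtain ⟨d1, hd1, hb1⟩ := h1 s (by omega) _ s1 (parts e c hb).1
    have vd : ∀ F, e ∈ F → d1 F = 0 := by
      intro F h
      by_contra h'
      exact (hd1 F h').1.1 h
    have sd : Supp (del e D) (s + 1) d1 :=
      hd1.mono (fun F hF => ⟨hD _ hF.2 _ (subset_insert _ _), hF.1⟩)
    obtain ⟨d0, hd0, hb0⟩ := h0 (s + 1) hs _ (s0.add sd)
      (by rw [bd_add, (parts e c hb).2, hb1, ch2])
    refine ⟨d0 + cone e d1, (hd0.mono sub).add hd1.cone, ?_⟩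
    rw [bd_add, hb0, bd_cone e _ vd, hb1]
    calc p0 e c + d1 + (d1 + cone e (p1 e c))
        = p0 e c + cone e (p1 e c) + (d1 + d1) := by abel
      _ = c := by rw [ch2, add_zero, ← decomp]

end Pool.Agent.MP_3b4e7c_co.Up

end MrgPart0

-- ======== part 1: formerly Pool.Agent.MP_3b4e7c_co.Up.Hall
section MrgPart1

/-! The topological Hall theorem over the field with two elements. -/

namespace Pool.Agent.MP_3b4e7c_co.Up

open Finset

variable {V : Type*} [DecidableEq V] [Fintype V] {Y : Type*} [DecidableEq Y]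

/-- faces of `D` all of whose colours lie in `S` -/
def res (col : V → Y) (D : Set (Finset V)) (S : Finset Y) : Set (Finset V) :=
  {F | F ∈ D ∧ ∀ v ∈ F, col v ∈ S}

/-- parity of the number of faces with colour set `S` -/
def par (col : V → Y) (S : Finset Y) (c : Finset V → ZMod 2) : ZMod 2 :=
  ∑ F with F.image col = S, c F

omit [Fintype V] in
theorem facet_count (col : V → Y) (S : Finset Y) (y : Y) (hy : y ∈ S) (F : Finset V)
    (hc : F.card = S.card) (hF : ∀ v ∈ F, col v ∈ S) :
    (((F.filter (fun x => (F.erase x).image col = S.erase y)).card : ℕ) : ZMod 2) =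
      if F.image col = S then 1 else 0 := by
  have hinj : ∀ x ∈ F, (F.erase x).image col = S.erase y → Set.InjOn col (F.erase x : Finset V) := by
    intro x hx h
    apply card_image_iff.1
    rw [h, card_erase_of_mem hy, card_erase_of_mem hx, hc]
  split_ifs with h
  · have inj : Set.InjOn col F := card_image_iff.1 (by rw [h, hc])
    obtain ⟨x, hx, hxy⟩ := mem_image.1 (h ▸ hy)
    have : F.filter (fun x => (F.erase x).image col = S.erase y) = {x} := by
      ext z
      simp only [mem_filter, mem_singleton]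
      constructor
      · rintro ⟨hz, h2⟩
        by_contra hne
        have : col x ∈ (F.erase z).image col :=
          mem_image_of_mem _ (mem_erase.2 ⟨fun hh => hne hh.symm, hx⟩)
        rw [h2, hxy] at this
        simp at this
      · rintro rfl
        refine ⟨hx, ?_⟩
        ext s
        simp only [mem_image, mem_erase]
        constructor
        · rintro ⟨w, ⟨hw1, hw2⟩, rfl⟩
          exact ⟨fun hh => hw1 (inj hw2 hx (hh.trans hxy.symm)), hF w hw2⟩
        · rintro ⟨h1, h2⟩
          obtain ⟨w, hw, rfl⟩ := mem_image.1 (h ▸ h2)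
          exact ⟨w, ⟨fun hh => h1 (hh ▸ hxy), hw⟩, rfl⟩
    rw [this]; simp
  · rcases (F.filter (fun x => (F.erase x).image col = S.erase y)).eq_empty_or_nonempty with
      he | ⟨x, hx⟩
    · rw [he]; simp
    · obtain ⟨hx, hx2⟩ := mem_filter.1 hx
      have hI : F.image col = insert (col x) (S.erase y) := by
        rw [← hx2, ← image_insert, insert_erase hx]
      have hxT : col x ∈ S.erase y := by
        refine mem_erase.2 ⟨fun hh => h ?_, hF x hx⟩
        rw [hI, hh, insert_erase hy]
      obtain ⟨x', hx', hxx'⟩ := mem_image.1 (hx2 ▸ hxT)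
      obtain ⟨hne, hx'F⟩ := mem_erase.1 hx'
      have inj := hinj x hx hx2
      have hI2 : F.image col = S.erase y := by rw [hI, insert_eq_of_mem hxT]
      have : F.filter (fun x => (F.erase x).image col = S.erase y) = {x, x'} := by
        ext z
        simp only [mem_filter, mem_insert, mem_singleton]
        constructor
        · rintro ⟨hz, h2⟩
          by_contra hn
          rw [not_or] at hn
          have h3 : col z ∈ (F.erase z).image col := by
            rw [h2, ← hI2]; exact mem_image_of_mem _ hz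
          obtain ⟨w, hw, hwz⟩ := mem_image.1 h3
          obtain ⟨hw1, hw2⟩ := mem_erase.1 hw
          have hz' : z ∈ F.erase x := mem_erase.2 ⟨hn.1, hz⟩
          by_cases hwx : w = x
          · exact hn.2 (inj hz' hx' (by rw [← hwz, hwx, hxx']))
          · exact hw1 (inj (mem_erase.2 ⟨hwx, hw2⟩) hz' hwz)
        · rintro (rfl | rfl)
          · exact ⟨hx, hx2⟩
          · refine ⟨hx'F, ?_⟩
            apply Subset.antisymm
            · rw [← hI2]; exact image_subset_image (erase_subset _ _)
            · intro s hs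
              rw [← hI2] at hs
              obtain ⟨w, hw, rfl⟩ := mem_image.1 hs
              by_cases hwz : w = z
              · exact mem_image.2 ⟨x, mem_erase.2 ⟨hne.symm, hx⟩, by rw [hwz, hxx']⟩
              · exact mem_image_of_mem _ (mem_erase.2 ⟨hwz, hw⟩)
      rw [this, card_pair hne.symm]
      rfl

theorem par_bd (col : V → Y) (D : Set (Finset V)) (S : Finset Y) (y : Y) (hy : y ∈ S)
    (c : Finset V → ZMod 2) (hc : Supp (res col D S) S.card c) :
    par col (S.erase y) (bd c) = par col S c := by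
  have h1 : par col (S.erase y) (bd c) =
      ∑ F : Finset V, ∑ x ∈ F with (F.erase x).image col = S.erase y, c F := by
    simp only [par, bd]
    rw [sum_sigma', sum_sigma']
    refine sum_bij' (fun a _ => ⟨insert a.2 a.1, a.2⟩) (fun a _ => ⟨a.1.erase a.2, a.2⟩)
      ?_ ?_ ?_ ?_ ?_
    · rintro ⟨G, x⟩ h
      simp only [mem_sigma, mem_filter, mem_univ, true_and, mem_compl] at h ⊢
      rw [erase_insert h.2]
      exact ⟨mem_insert_self _ _, h.1⟩
    · rintro ⟨F, x⟩ h
      simp only [mem_sigma, mem_filter, mem_univ, true_and, mem_compl] at h ⊢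
      exact ⟨h.2, notMem_erase _ _⟩
    · rintro ⟨G, x⟩ h
      simp only [mem_sigma, mem_filter, mem_univ, true_and, mem_compl] at h
      simp [erase_insert h.2]
    · rintro ⟨F, x⟩ h
      simp only [mem_sigma, mem_filter, mem_univ, true_and] at h
      simp [insert_erase h.1]
    · rintro ⟨G, x⟩ _
      rfl
  rw [h1, par, sum_filter]
  refine sum_congr rfl (fun F _ => ?_)
  rw [sum_const, nsmul_eq_mul]
  by_cases h : c F = 0
  · simp [h]
  · rw [facet_count col S y hy F (hc F h).2 (hc F h).1.2]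
    split_ifs <;> simp

theorem top_hall (col : V → Y) (D : Set (Finset V)) (h0 : ∅ ∈ D) (Y0 : Finset Y)
    (h : ∀ S ⊆ Y0, Acyc S.card (res col D S)) :
    ∃ F ∈ D, F.card = Y0.card ∧ F.image col = Y0 := by
  have key : ∀ m : ℕ, ∃ c : Finset Y → Finset V → ZMod 2, ∀ S ⊆ Y0, S.card ≤ m →
      Supp (res col D S) S.card (c S) ∧ bd (c S) = ∑ y ∈ S, c (S.erase y) ∧
        par col S (c S) = 1 := by
    intro m
    induction m with
    | zero =>
      refine ⟨fun _ F => if F = ∅ then 1 else 0, fun S _ hS => ?_⟩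
      obtain rfl : S = ∅ := card_eq_zero.1 (by omega)
      refine ⟨?_, ?_, ?_⟩
      · intro F hF
        have : F = ∅ := by by_contra hh; simp [hh] at hF
        subst this
        exact ⟨⟨h0, by simp⟩, rfl⟩
      · funext F; simp [bd]
      · simp [par]
    | succ m ih =>
      obtain ⟨c, hc⟩ := ih
      have ex : ∀ S : Finset Y, ∃ d : Finset V → ZMod 2, S ⊆ Y0 → S.card = m + 1 →
          Supp (res col D S) S.card d ∧ bd d = ∑ y ∈ S, c (S.erase y) := by
        intro S
        by_cases hS : S ⊆ Y0 ∧ S.card = m + 1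
        · obtain ⟨hS, hm⟩ := hS
          have hE : ∀ y ∈ S, (S.erase y).card = m := fun y hy => by
            rw [card_erase_of_mem hy]; omega
          have hcy := fun y (hy : y ∈ S) =>
            hc (S.erase y) ((erase_subset _ _).trans hS) (hE y hy).le
          obtain ⟨d, hd⟩ := h S hS m (by omega) (∑ y ∈ S, c (S.erase y)) (by
            intro F hF
            rw [Finset.sum_apply] at hF
            obtain ⟨y, hy, hy2⟩ := exists_ne_zero_of_sum_ne_zero hF
            obtain ⟨a, b⟩ := (hcy y hy).1 F hy2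
            exact ⟨⟨a.1, fun v hv => mem_of_mem_erase (a.2 v hv)⟩, b.trans (hE y hy)⟩) (by
            rw [bd_sum, sum_congr rfl (fun y hy => (hcy y hy).2.1)]
            funext F
            simp only [Finset.sum_apply, Pi.zero_apply]
            exact sum_sym S (fun y z => c ((S.erase y).erase z) F)
              (fun y z => by rw [erase_right_comm]))
          exact ⟨d, fun _ _ => hm ▸ hd⟩
        · exact ⟨0, fun a b => absurd ⟨a, b⟩ hS⟩
      choose d hd using ex
      refine ⟨fun S => if S.card = m + 1 then d S else c S, fun S hS hm => ?_⟩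
      have hE : ∀ y ∈ S, (if (S.erase y).card = m + 1 then d (S.erase y) else c (S.erase y)) =
          c (S.erase y) := by
        intro y hy
        rw [if_neg]
        rw [card_erase_of_mem hy]; omega
      simp only []
      rw [sum_congr rfl hE]
      by_cases hm' : S.card = m + 1
      · rw [if_pos hm']
        obtain ⟨a, b⟩ := hd S hS hm'
        refine ⟨a, b, ?_⟩
        obtain ⟨y, hy⟩ : S.Nonempty := card_pos.1 (by omega)
        have hcy := fun y (hy : y ∈ S) =>
          hc (S.erase y) ((erase_subset _ _).trans hS) (by rw [card_erase_of_mem hy]; omega)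
        rw [← par_bd col D S y hy _ a, b, ← (hcy y hy).2.2]
        simp only [par, Finset.sum_apply]
        refine sum_congr rfl (fun F hF => ?_)
        rw [sum_eq_single y]
        · intro z hz hzy
          by_contra hne
          have h1 := ((hcy z hz).1 F hne).1.2
          have h2 : z ∈ F.image col := by
            rw [(mem_filter.1 hF).2]; exact mem_erase.2 ⟨hzy, hz⟩
          obtain ⟨v, hv, hvz⟩ := mem_image.1 h2
          have := h1 v hv
          rw [hvz] at this
          simp at this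
        · intro hh; exact absurd hy hh
      · rw [if_neg hm']
        exact hc S hS (by omega)
  obtain ⟨c, hc⟩ := key Y0.card
  obtain ⟨a, -, b⟩ := hc Y0 Subset.rfl le_rfl
  have : par col Y0 (c Y0) ≠ 0 := by rw [b]; exact one_ne_zero
  obtain ⟨F, hF, hF2⟩ := exists_ne_zero_of_sum_ne_zero this
  exact ⟨F, (a F hF2).1.1, (a F hF2).2, (mem_filter.1 hF).2⟩

end Pool.Agent.MP_3b4e7c_co.Up

end MrgPart1

-- ======== part 2: formerly Pool.Agent.MP_3b4e7c_co.Up.Branch
section MrgPart2

/-! The branching complex: every point picks at most one parent label, without directed cycles. -/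

namespace Pool.Agent.MP_3b4e7c_co.Up

open Finset

variable {X : Type*} [DecidableEq X] [Fintype X] {Y : Type*} [DecidableEq Y] [Fintype Y]

/-- branchings inside the arc set `A` for the tails `t` -/
def Br (A : Finset (X × Y)) (t : Y → X) : Set (Finset (X × Y)) :=
  {F | F ⊆ A ∧ (∀ a ∈ F, ∀ b ∈ F, a.1 = b.1 → a = b) ∧
    ∃ r : X → ℕ, ∀ a ∈ F, r (t a.2) < r a.1}

/-- tails after contracting the arc `e` -/
def ctr (t : Y → X) (e : X × Y) : Y → X := fun y => if t y = e.1 then t e.2 else t y

omit [Fintype X] [Fintype Y] [DecidableEq X] [DecidableEq Y] in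
theorem Br_down (A : Finset (X × Y)) (t : Y → X) : Down (Br A t) := by
  rintro F ⟨h1, h2, r, h3⟩ G hG
  exact ⟨hG.trans h1, fun a ha b hb => h2 a (hG ha) b (hG hb), r, fun a ha => h3 a (hG ha)⟩

omit [Fintype X] [Fintype Y] [DecidableEq X] [DecidableEq Y] in
theorem Br_empty (A : Finset (X × Y)) (t : Y → X) : ∅ ∈ Br A t :=
  ⟨empty_subset _, by simp, fun _ => 0, by simp⟩

omit [Fintype X] [Fintype Y] in
theorem Br_del (A : Finset (X × Y)) (t : Y → X) (e : X × Y) :
    del e (Br A t) = Br (A.erase e) t := by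
  ext F
  simp only [del, Br, Set.mem_setOf_eq, subset_erase]
  tauto

omit [Fintype X] [Fintype Y] in
theorem Br_lk_loop (A : Finset (X × Y)) (t : Y → X) (e : X × Y) (h : t e.2 = e.1) :
    lk e (Br A t) = ∅ := by
  ext F
  simp only [lk, Br, Set.mem_setOf_eq, Set.mem_empty_iff_false, iff_false]
  rintro ⟨-, -, -, r, hr⟩
  have := hr e (mem_insert_self _ _)
  rw [h] at this
  omega

omit [Fintype X] [Fintype Y] in
theorem Br_lk (A : Finset (X × Y)) (t : Y → X) (e : X × Y) (he : e ∈ A) (h : t e.2 ≠ e.1) :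
    lk e (Br A t) = Br (A.filter (fun a => a.1 ≠ e.1)) (ctr t e) := by
  ext F
  simp only [lk, Br, Set.mem_setOf_eq]
  constructor
  · rintro ⟨h0, h1, h2, r, h3⟩
    refine ⟨fun a ha => mem_filter.2 ⟨h1 (mem_insert_of_mem ha), fun hh => h0 ?_⟩,
      fun a ha b hb => h2 a (mem_insert_of_mem ha) b (mem_insert_of_mem hb), r, fun a ha => ?_⟩
    · rw [← h2 a (mem_insert_of_mem ha) e (mem_insert_self _ _) hh]; exact ha
    · have h4 := h3 a (mem_insert_of_mem ha)
      have h5 := h3 e (mem_insert_self _ _)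
      simp only [ctr]
      split_ifs with hh
      · rw [hh] at h4; omega
      · exact h4
  · rintro ⟨h1, h2, r, h3⟩
    have hne : ∀ a ∈ F, a.1 ≠ e.1 := fun a ha => (mem_filter.1 (h1 ha)).2
    refine ⟨fun hh => hne e hh rfl, ?_, ?_,
      fun x => if x = e.1 then 2 * r (t e.2) + 1 else 2 * r x, ?_⟩
    · intro a ha
      rcases mem_insert.1 ha with rfl | ha
      · exact he
      · exact (mem_filter.1 (h1 ha)).1
    · intro a ha b hb hab
      rcases mem_insert.1 ha with rfl | ha' <;> rcases mem_insert.1 hb with rfl | hb'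
      · rfl
      · exact absurd hab.symm (hne b hb')
      · exact absurd hab (hne a ha')
      · exact h2 a ha' b hb' hab
    · intro a ha
      rcases mem_insert.1 ha with rfl | ha
      · simp only [if_neg h, if_true]; omega
      · have h4 := h3 a ha
        simp only [ctr] at h4
        simp only [if_neg (hne a ha)]
        split_ifs at h4 ⊢ with hh <;> omega

theorem peel (t : Y → X) (v : X) (k : ℕ) (S : Finset (X × Y)) :
    ∀ A : Finset (X × Y), S ⊆ A → (∀ e ∈ S, e.1 = v) → Acyc k (Br (A \ S) t) →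
      (∀ e ∈ S, t e.2 ≠ v → Acyc (k - 1) (Br (A.filter (fun a => a.1 ≠ v)) (ctr t e))) →
      Acyc k (Br A t) := by
  induction S using Finset.induction_on with
  | empty => intro A _ _ h _; simpa using h
  | insert e S he ih =>
    intro A hS hv h0 h1
    have hev := hv e (mem_insert_self _ _)
    refine acyc_dl (Br_down A t) e k ?_ ?_
    · rw [Br_del]
      refine ih _ (fun a ha => mem_erase.2 ⟨fun hh => he (hh ▸ ha), hS (mem_insert_of_mem ha)⟩)
        (fun a ha => hv a (mem_insert_of_mem ha)) ?_ ?_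
      · have : A.erase e \ S = A \ insert e S := by
          ext a; simp only [mem_sdiff, mem_erase, mem_insert]; tauto
        rw [this]; exact h0
      · intro a ha hta
        have : (A.erase e).filter (fun a => a.1 ≠ v) = A.filter (fun a => a.1 ≠ v) := by
          ext b
          simp only [mem_filter, mem_erase]
          constructor
          · tauto
          · rintro ⟨b1, b2⟩
            exact ⟨⟨fun hh => b2 (hh ▸ hev), b1⟩, b2⟩
        rw [this]; exact h1 a (mem_insert_of_mem ha) hta
    · by_cases hl : t e.2 = e.1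
      · rw [Br_lk_loop A t e hl]; exact acyc_void _
      · rw [Br_lk A t e (hS (mem_insert_self _ _)) hl, hev]
        exact h1 e (mem_insert_self _ _) (hev ▸ hl)

theorem cone_gen (A : Finset (X × Y)) (t : Y → X) (e : X × Y) (he : e ∈ A)
    (hu : ∀ a ∈ A, a.1 = e.1 → a = e)
    (h : (∀ a ∈ A, a.1 ≠ t e.2) ∨ (∀ a ∈ A, t a.2 ≠ e.1)) (k : ℕ) : Acyc k (Br A t) := by
  refine acyc_cone e ?_ k
  rintro F ⟨h1, h2, r, h3⟩
  refine ⟨insert_subset he h1, ?_, ?_⟩
  · intro a ha b hb hab
    rcases mem_insert.1 ha with rfl | ha' <;> rcases mem_insert.1 hb with rfl | hb'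
    · rfl
    · exact (hu b (h1 hb') hab.symm).symm
    · exact hu a (h1 ha') hab
    · exact h2 a ha' b hb' hab
  · rcases h with h | h
    · refine ⟨fun x => if x = t e.2 then 0 else r x + 1, fun a ha => ?_⟩
      rcases mem_insert.1 ha with rfl | ha
      · simp [h a he]
      · have := h3 a ha
        simp only [if_neg (h a (h1 ha))]
        split_ifs <;> omega
    · refine ⟨fun x => if x = e.1 then r (t e.2) + 1 else r x, fun a ha => ?_⟩
      rcases mem_insert.1 ha with rfl | ha
      · simp [h a he]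
      · have := h3 a ha
        simp only [if_neg (h a (h1 ha))]
        split_ifs with hh
        · rw [hu a (h1 ha) hh]; omega
        · exact this

/-- all arcs into points of `Q` through labels of `S` -/
def arcs (H : Y → Finset X) (S : Finset Y) (Q : Finset X) : Finset (X × Y) :=
  (Q ×ˢ S).filter (fun a => a.1 ∈ H a.2)

omit [Fintype X] [Fintype Y] [DecidableEq Y] in
theorem mem_arcs {H : Y → Finset X} {S : Finset Y} {Q : Finset X} {a : X × Y} :
    a ∈ arcs H S Q ↔ a.1 ∈ Q ∧ a.2 ∈ S ∧ a.1 ∈ H a.2 := by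
  simp only [arcs, mem_filter, mem_product]; tauto

omit [Fintype X] [Fintype Y] [DecidableEq Y] in
theorem arcs_filter (H : Y → Finset X) (S : Finset Y) (Q : Finset X) (v : X) :
    (arcs H S Q).filter (fun a => a.1 ≠ v) = arcs H S (Q.erase v) := by
  ext a; simp only [mem_filter, mem_arcs, mem_erase]; tauto

omit [Fintype X] [Fintype Y] [DecidableEq Y] in
theorem res_Br (H : Y → Finset X) (S S' : Finset Y) (hS : S' ⊆ S) (Q : Finset X) (t : Y → X) :
    res Prod.snd (Br (arcs H S Q) t) S' = Br (arcs H S' Q) t := by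
  ext F
  simp only [res, Br, Set.mem_setOf_eq]
  constructor
  · rintro ⟨⟨h1, h2⟩, h3⟩
    refine ⟨fun a ha => ?_, h2⟩
    have := mem_arcs.1 (h1 ha)
    exact mem_arcs.2 ⟨this.1, h3 a ha, this.2.2⟩
  · rintro ⟨h1, h2⟩
    refine ⟨⟨fun a ha => ?_, h2⟩, fun a ha => (mem_arcs.1 (h1 ha)).2.1⟩
    have := mem_arcs.1 (h1 ha)
    exact mem_arcs.2 ⟨this.1, hS this.2.1, this.2.2⟩

/-- no label of `S` contains two points of `I` -/
def Indep (H : Y → Finset X) (S : Finset Y) (I : Finset X) : Prop :=
  ∀ y ∈ S, ∀ a ∈ I, ∀ b ∈ I, a ∈ H y → b ∈ H y → a = b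

/-- a step of a directed walk inside `K` -/
def Step (H : Y → Finset X) (S : Finset Y) (t : Y → X) (K : Finset X) (a b : X) : Prop :=
  b ∈ K ∧ ∃ y ∈ S, t y = a ∧ b ∈ H y

/-- the numerical hypothesis: independent sets avoiding the source labels are small -/
def Hyp (H : Y → Finset X) (S : Finset Y) (Q : Finset X) (t : Y → X) (k : ℕ) : Prop :=
  ∀ I ⊆ Q, Indep H S I → (∀ y ∈ S, t y ∉ Q → ∀ a ∈ I, a ∉ H y) → k + I.card ≤ Q.card

omit [Fintype X] [Fintype Y] [DecidableEq Y] in
theorem Hyp.ctr {H : Y → Finset X} {S : Finset Y} {Q : Finset X} {t : Y → X} {k : ℕ}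
    (h : Hyp H S Q t k) {v : X} (hv : v ∈ Q) (y0 : Y) :
    Hyp H S (Q.erase v) (ctr t (v, y0)) (k - 1) := by
  intro I hI h1 h2
  have := h I (hI.trans (erase_subset _ _)) h1 (fun y hy hty => h2 y hy (by
    have : t y ≠ v := fun hh => hty (hh ▸ hv)
    simp only [Up.ctr, if_neg this]
    exact fun hh => hty (mem_of_mem_erase hh)))
  have h3 := card_le_card hI
  rw [card_erase_of_mem hv] at h3 ⊢
  omega

theorem walk_back (H : Y → Finset X) (S : Finset Y) (Inv : Finset X → (Y → X) → Prop)
    (hdel : ∀ Q t v, Inv Q t → v ∈ Q → Inv (Q.erase v) t)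
    (hctr : ∀ Q t v y, Inv Q t → v ∈ Q → y ∈ S → v ∈ H y → t y ≠ v →
      Inv (Q.erase v) (ctr t (v, y)))
    (N : ℕ) (ih : ∀ Q t k, Q.card < N → Inv Q t → Hyp H S Q t k → Acyc k (Br (arcs H S Q) t))
    (q : X) (w : Y) :
    ∀ (m : ℕ) (Q : Finset X) (t : Y → X) (k : ℕ), Q.card = m → Q.card ≤ N → q ∈ Q → Inv Q t →
      (∀ K ⊆ Q, q ∈ K → Relation.ReflTransGen (Step H S t K) q (t w) → ∀ I ⊆ Q \ K,
        Indep H S I → (∀ y ∈ S, t y ∈ K → ∀ a ∈ I, a ∉ H y) → k + I.card + 1 ≤ Q.card) →
      Acyc k (Br (insert (q, w) (arcs H S (Q.erase q))) t) := by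
  intro m
  induction m using Nat.strong_induction_on with
  | _ m ihm =>
    intro Q t k hm hN hq hI hK
    rcases Nat.eq_zero_or_pos k with rfl | hk
    · intro s hs; omega
    have hqa : (q, w) ∉ arcs H S (Q.erase q) := by simp [mem_arcs]
    have huniq : ∀ Q' : Finset X, ∀ a ∈ insert (q, w) (arcs H S (Q'.erase q)),
        a.1 = q → a = (q, w) := by
      intro Q' a ha haq
      rcases mem_insert.1 ha with rfl | ha
      · rfl
      · exact absurd haq (mem_erase.1 (mem_arcs.1 ha).1).1
    by_cases hx : t w ∈ Q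
    · by_cases hxq : t w = q
      · refine acyc_dl (Br_down _ _) (q, w) k ?_ ?_
        · rw [Br_del, erase_insert hqa]
          refine ih _ t k (by rw [card_erase_of_mem hq]; have := card_pos.2 ⟨q, hq⟩; omega)
            (hdel Q t q hI hq) ?_
          intro I h1 h2 h3
          have := hK {q} (by simpa using hq) (mem_singleton_self _) (by rw [hxq])
            I (by rwa [sdiff_singleton_eq_erase]) h2
            (fun y hy hty => h3 y hy (by rw [mem_singleton.1 hty]; simp))
          rw [card_erase_of_mem hq]; omega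
        · rw [Br_lk_loop _ _ _ hxq]; exact acyc_void _
      · set A := insert (q, w) (arcs H S (Q.erase q)) with hA
        have hfil : A.filter (fun a => a.1 ≠ t w) =
            insert (q, w) (arcs H S ((Q.erase (t w)).erase q)) := by
          rw [hA, filter_insert, if_pos (Ne.symm hxq), arcs_filter, erase_right_comm]
        refine peel t (t w) k (A.filter (fun a => a.1 = t w)) A (filter_subset _ _)
          (fun e he => (mem_filter.1 he).2) ?_ ?_
        · rw [← filter_not, hfil]
          refine cone_gen _ t (q, w) (mem_insert_self _ _) (huniq _) (Or.inl ?_) k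
          intro a ha
          rw [← hfil] at ha
          exact (mem_filter.1 ha).2
        · rintro ⟨x, y0⟩ he hty
          obtain ⟨he, hxe⟩ := mem_filter.1 he
          simp only at hxe hty
          subst hxe
          have he' : (t w, y0) ∈ arcs H S (Q.erase q) := by
            rcases mem_insert.1 he with h | h
            · exact absurd (congrArg Prod.fst h) hxq
            · exact h
          obtain ⟨-, hy0, hxy0⟩ := mem_arcs.1 he'
          have hc := card_erase_of_mem hx
          have hpos := card_pos.2 ⟨q, hq⟩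
          rw [hfil]
          refine ihm (Q.erase (t w)).card (by omega) _ _ _ rfl (by omega)
            (mem_erase.2 ⟨Ne.symm hxq, hq⟩) (hctr Q t _ y0 hI hx hy0 hxy0 hty) ?_
          intro K hKQ hqK hr I h1 h2 h3
          have hxK : t w ∉ K := fun hh => (mem_erase.1 (hKQ hh)).1 rfl
          have e1 : ctr t (t w, y0) w = t y0 := by simp [ctr]
          rw [e1] at hr
          have hend : t y0 ∈ K := by
            rcases hr.cases_tail with h | ⟨c, -, h⟩
            · rw [h]; exact hqK
            · exact h.1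
          have hr' : Relation.ReflTransGen (Step H S t (insert (t w) K)) q (t y0) := by
            refine Relation.ReflTransGen.trans_induction_on (motive := fun {a b} _ =>
              Relation.ReflTransGen (Step H S t (insert (t w) K)) a b) hr
              (fun _ => Relation.ReflTransGen.refl) ?_ (fun _ _ h1 h2 => h1.trans h2)
            rintro a b ⟨hb, y, hy, hya, hby⟩
            by_cases hh : t y = t w
            · simp only [ctr, if_pos hh] at hya
              exact (Relation.ReflTransGen.single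
                ⟨mem_insert_self _ _, y0, hy0, hya, hxy0⟩).tail
                ⟨mem_insert_of_mem hb, y, hy, hh, hby⟩
            · simp only [ctr, if_neg hh] at hya
              exact Relation.ReflTransGen.single ⟨mem_insert_of_mem hb, y, hy, hya, hby⟩
          have := hK (insert (t w) K) (insert_subset hx (hKQ.trans (erase_subset _ _)))
            (mem_insert_of_mem hqK) (hr'.tail ⟨mem_insert_self _ _, y0, hy0, rfl, hxy0⟩) I
            (by
              intro a ha
              have := mem_sdiff.1 (h1 ha)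
              have h4 := mem_erase.1 this.1
              exact mem_sdiff.2 ⟨h4.2, by simp [h4.1, this.2]⟩) h2
            (by
              intro y hy hty
              refine h3 y hy ?_
              by_cases hh : t y = t w
              · simp only [ctr, if_pos hh]; exact hend
              · simp only [ctr, if_neg hh]
                exact (mem_insert.1 hty).resolve_left hh)
          omega
    · refine cone_gen _ t (q, w) (mem_insert_self _ _) (huniq _) (Or.inl ?_) k
      intro a ha hh
      rcases mem_insert.1 ha with rfl | ha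
      · exact hx (hh ▸ hq)
      · exact hx (hh ▸ mem_of_mem_erase (mem_arcs.1 ha).1)

/-- The connectivity bound for the branching complex from the key step `hkey`. -/
theorem e2_abs (H : Y → Finset X) (S : Finset Y) (Inv : Finset X → (Y → X) → Prop)
    (hdel : ∀ Q t v, Inv Q t → v ∈ Q → Inv (Q.erase v) t)
    (hctr : ∀ Q t v y, Inv Q t → v ∈ Q → y ∈ S → v ∈ H y → t y ≠ v →
      Inv (Q.erase v) (ctr t (v, y)))
    (hkey : ∀ Q t, Inv Q t → Q.Nonempty → (∀ y ∈ S, t y ∉ Q → ∀ a ∈ Q, a ∉ H y) →
      (∀ v ∈ Q, ∃ y ∈ S, v ∈ H y) → (∀ v ∈ Q, ∃ y ∈ S, t y = v) →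
      ∃ q ∈ Q, ∃ w ∈ S, q ∈ H w ∧ ∀ K ⊆ Q, q ∈ K →
        Relation.ReflTransGen (Step H S t K) q (t w) → ∀ I ⊆ Q \ K, Indep H S I →
        (∀ y ∈ S, t y ∈ K → ∀ a ∈ I, a ∉ H y) → ∃ J ⊆ Q, Indep H S J ∧ I.card < J.card) :
    ∀ (N : ℕ) (Q : Finset X) (t : Y → X) (k : ℕ), Q.card < N → Inv Q t → Hyp H S Q t k →
      Acyc k (Br (arcs H S Q) t) := by
  intro N
  induction N with
  | zero => intro Q t k h; omega
  | succ N ih =>
    intro Q t k hN hI hyp
    rcases Q.eq_empty_or_nonempty with rfl | hne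
    · have := hyp ∅ Subset.rfl (by simp [Indep]) (by simp)
      intro s hs; simp at this; omega
    have keep : ∀ v ∈ Q, ∀ w ∈ S, v ∈ H w →
        Acyc k (Br (insert (v, w) (arcs H S (Q.erase v))) t) → Acyc k (Br (arcs H S Q) t) := by
      intro v hv w hw hvw h
      refine peel t v k (((arcs H S Q).filter (fun a => a.1 = v)).erase (v, w)) _
        ((erase_subset _ _).trans (filter_subset _ _))
        (fun e he => (mem_filter.1 (mem_of_mem_erase he)).2) ?_ ?_
      · have : arcs H S Q \ ((arcs H S Q).filter (fun a => a.1 = v)).erase (v, w) =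
            insert (v, w) (arcs H S (Q.erase v)) := by
          ext a
          simp only [mem_sdiff, mem_erase, mem_filter, mem_insert, mem_arcs]
          constructor
          · tauto
          · rintro (rfl | h)
            · simp [hv, hw, hvw]
            · tauto
        rw [this]; exact h
      · rintro ⟨x, y0⟩ he hty
        obtain ⟨he', hxe⟩ := mem_filter.1 (mem_of_mem_erase he)
        simp only at hxe hty
        subst hxe
        obtain ⟨-, hy0, hxy0⟩ := mem_arcs.1 he'
        rw [arcs_filter]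
        exact ih _ _ _ (by rw [card_erase_of_mem hv]; have := card_pos.2 hne; omega)
          (hctr Q t _ y0 hI hv hy0 hxy0 hty) (hyp.ctr hv y0)
    have huniq : ∀ v w, ∀ a ∈ insert (v, w) (arcs H S (Q.erase v)), a.1 = v → a = (v, w) := by
      intro v w a ha haq
      rcases mem_insert.1 ha with rfl | ha
      · rfl
      · exact absurd haq (mem_erase.1 (mem_arcs.1 ha).1).1
    by_cases h1 : ∀ v ∈ Q, ∃ y ∈ S, v ∈ H y
    swap
    · push Not at h1
      obtain ⟨v, hv, h1⟩ := h1
      have : arcs H S Q = arcs H S (Q.erase v) := by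
        ext a
        simp only [mem_arcs, mem_erase]
        constructor
        · rintro ⟨a1, a2, a3⟩
          exact ⟨⟨fun hh => h1 _ a2 (hh ▸ a3), a1⟩, a2, a3⟩
        · tauto
      rw [this]
      refine ih _ t k (by rw [card_erase_of_mem hv]; have := card_pos.2 hne; omega)
        (hdel Q t v hI hv) ?_
      intro I i1 i2 i3
      have hvI : v ∉ I := fun hh => (mem_erase.1 (i1 hh)).1 rfl
      have := hyp (insert v I) (insert_subset hv (i1.trans (erase_subset _ _))) (by
        intro y hy a ha b hb hay hby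
        rcases mem_insert.1 ha with rfl | ha
        · exact absurd hay (h1 y hy)
        rcases mem_insert.1 hb with rfl | hb
        · exact absurd hby (h1 y hy)
        exact i2 y hy a ha b hb hay hby) (by
        intro y hy hty a ha
        rcases mem_insert.1 ha with rfl | ha
        · exact h1 y hy
        · exact i3 y hy (fun hh => hty (mem_of_mem_erase hh)) a ha)
      rw [card_insert_of_notMem hvI] at this
      rw [card_erase_of_mem hv]; omega
    by_cases h2 : ∀ y ∈ S, t y ∉ Q → ∀ a ∈ Q, a ∉ H y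
    swap
    · push Not at h2
      obtain ⟨w, hw, htw, v, hv, hvw⟩ := h2
      refine keep v hv w hw hvw
        (cone_gen _ t (v, w) (mem_insert_self _ _) (huniq v w) (Or.inl ?_) k)
      intro a ha hh
      rcases mem_insert.1 ha with rfl | ha
      · exact htw (hh ▸ hv)
      · exact htw (hh ▸ mem_of_mem_erase (mem_arcs.1 ha).1)
    by_cases h3 : ∀ v ∈ Q, ∃ y ∈ S, t y = v
    swap
    · push Not at h3
      obtain ⟨v, hv, h3⟩ := h3
      obtain ⟨w, hw, hvw⟩ := h1 v hv
      refine keep v hv w hw hvw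
        (cone_gen _ t (v, w) (mem_insert_self _ _) (huniq v w) (Or.inr ?_) k)
      intro a ha
      rcases mem_insert.1 ha with rfl | ha
      · exact h3 w hw
      · exact h3 _ (mem_arcs.1 ha).2.1
    obtain ⟨q, hq, w, hw, hqw, hK⟩ := hkey Q t hI hne h2 h1 h3
    refine keep q hq w hw hqw (walk_back H S Inv hdel hctr N ih q w _ Q t k rfl
      (by omega) hq hI ?_)
    intro K k1 k2 k3 I i1 i2 i3
    obtain ⟨J, j1, j2, j3⟩ := hK K k1 k2 k3 I i1 i2 i3
    have := hyp J j1 j2 (fun y hy hty a ha => h2 y hy hty a (j1 ha))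
    omega

end Pool.Agent.MP_3b4e7c_co.Up

end MrgPart2

-- ======== part 3: formerly Pool.Agent.MP_3b4e7c_co.Up.Key
section MrgPart3

/-! The key step for families with the bottom point property. -/

namespace Pool.Agent.MP_3b4e7c_co.Up

open Finset

variable {X : Type*} [LinearOrder X] {Y : Type*}

/-- every label through `c` contains one side of `M` -/
def IsBottom (H : Y → Finset X) (M : Finset X) (c : X) : Prop :=
  ∀ r, c ∈ H r → (∀ p ∈ M, p ≤ c → p ∈ H r) ∨ (∀ p ∈ M, c ≤ p → p ∈ H r)

/-- a label missing a point of `M` misses a bottom point of `M` -/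
def BL (H : Y → Finset X) (P : Finset X) : Prop :=
  ∀ M ⊆ P, ∀ z, (∃ p ∈ M, p ∉ H z) → ∃ c ∈ M, c ∉ H z ∧ IsBottom H M c

theorem BL.aba {H : Y → Finset X} {P : Finset X} (h : BL H P) {x y z : X} (hx : x ∈ P)
    (hy : y ∈ P) (hz : z ∈ P) (l1 : x < y) (l2 : y < z) {A B : Y} (a1 : x ∈ H A) (a2 : y ∉ H A)
    (a3 : z ∈ H A) (b2 : y ∈ H B) : x ∈ H B ∨ z ∈ H B := by
  obtain ⟨c, hc, hcA, hb⟩ := h {x, y, z} (by
    intro a ha
    simp only [mem_insert, mem_singleton] at ha
    rcases ha with rfl | rfl | rfl <;> assumption) A ⟨y, by simp, a2⟩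
  have : c = y := by
    simp only [mem_insert, mem_singleton] at hc
    rcases hc with rfl | rfl | rfl
    · exact absurd a1 hcA
    · rfl
    · exact absurd a3 hcA
  subst this
  rcases hb B b2 with h1 | h1
  · exact Or.inl (h1 x (by simp) l1.le)
  · exact Or.inr (h1 z (by simp) l2.le)

theorem BL.cover {H : Y → Finset X} {P : Finset X} (h : BL H P) (S : Finset Y) (M : Finset X)
    (hM : M ⊆ P) (hne : M.Nonempty) (hc : ∀ a ∈ M, ∀ b ∈ M, ∃ y ∈ S, a ∈ H y ∧ b ∈ H y) :
    ∃ q ∈ M, IsBottom H M q ∧ (∃ u ∈ S, ∀ p ∈ M, p ≤ q → p ∈ H u) ∧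
      ∃ w ∈ S, ∀ p ∈ M, q ≤ p → p ∈ H w := by
  classical
  set B := M.filter (fun c => IsBottom H M c ∧ ∃ u ∈ S, ∀ p ∈ M, p ≤ c → p ∈ H u) with hB
  have hBne : B.Nonempty := by
    have hm := min'_mem M hne
    have e : ∀ p ∈ M, p ≤ M.min' hne → p = M.min' hne :=
      fun p hp hl => le_antisymm hl (min'_le _ _ hp)
    refine ⟨M.min' hne, mem_filter.2 ⟨hm, fun r hr => Or.inl (fun p hp hl => ?_), ?_⟩⟩
    · rw [e p hp hl]; exact hr
    · obtain ⟨y, hy, h1, -⟩ := hc _ hm _ hm
      exact ⟨y, hy, fun p hp hl => by rw [e p hp hl]; exact h1⟩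
  obtain ⟨hq, hqb, u, hu, hqu⟩ := mem_filter.1 (max'_mem B hBne)
  set q := B.max' hBne with hqdef
  refine ⟨q, hq, hqb, ⟨u, hu, hqu⟩, ?_⟩
  set B2 := M.filter (fun c => IsBottom H M c ∧ q < c) with hB2
  rcases B2.eq_empty_or_nonempty with he | hne2
  · refine ⟨u, hu, fun p hp hl => hqu p hp ?_⟩
    by_contra hlt
    have hm := max'_mem M hne
    have : M.max' hne ∈ B2 := by
      refine mem_filter.2 ⟨hm, fun r hr => Or.inr (fun p hp hl => ?_), ?_⟩
      · rw [le_antisymm (le_max' _ _ hp) hl]; exact hr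
      · exact (not_le.1 hlt).trans_le (le_max' _ _ hp)
    rw [he] at this
    simp at this
  · obtain ⟨hq', hqb', hlt⟩ := mem_filter.1 (min'_mem B2 hne2)
    set q' := B2.min' hne2 with hq'def
    obtain ⟨z, hz, z1, z2⟩ := hc q hq q' hq'
    refine ⟨z, hz, ?_⟩
    rcases hqb' z z2 with h1 | h1
    · have : q' ∈ B := mem_filter.2 ⟨hq', hqb', z, hz, h1⟩
      exact absurd (le_max' B q' this) (not_le.2 hlt)
    rcases hqb z z1 with h2 | h2
    swap
    · exact h2
    intro p hp _
    by_contra hpz
    obtain ⟨c, hc1, hc2, hc3⟩ := h M hM z ⟨p, hp, hpz⟩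
    have l1 : q < c := not_le.1 (fun hh => hc2 (h2 c hc1 hh))
    have l2 : c < q' := not_le.1 (fun hh => hc2 (h1 c hc1 hh))
    have : c ∈ B2 := mem_filter.2 ⟨hc1, hc3, l1⟩
    exact absurd (min'_le B2 c this) (not_le.2 l2)

theorem BL.gc {H : Y → Finset X} {P : Finset X} (h : BL H P) (S : Finset Y) (Q : Finset X)
    (hQ : Q ⊆ P) (hne : Q.Nonempty) (hc : ∀ v ∈ Q, ∃ y ∈ S, v ∈ H y) :
    ∃ q ∈ Q, ∀ r ∈ S, q ∈ H r → ∃ w ∈ S, q ∈ H w ∧ ∀ I ⊆ Q, Indep H S I →
      (∀ a ∈ I, a ∉ H r ∧ a ∉ H w) → ∃ J ⊆ Q, Indep H S J ∧ I.card < J.card := by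
  classical
  obtain ⟨J, hJ, hmax⟩ := exists_max_image (Q.powerset.filter (Indep H S)) card
    ⟨∅, by simp [Indep]⟩
  obtain ⟨hJ1, hJ2⟩ := mem_filter.1 hJ
  rw [mem_powerset] at hJ1
  have hmax' : ∀ I ⊆ Q, Indep H S I → I.card ≤ J.card :=
    fun I h1 h2 => hmax I (mem_filter.2 ⟨mem_powerset.2 h1, h2⟩)
  have hpos : 0 < J.card := by
    obtain ⟨v, hv⟩ := hne
    have := hmax' {v} (by simpa using hv) (by
      intro y _ a ha b hb _ _
      rw [mem_singleton.1 ha, mem_singleton.1 hb])
    simpa using this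
  set M := Q.filter (fun c => ∃ I ⊆ Q, Indep H S I ∧ I.card = J.card ∧ c ∈ I ∧ ∀ a ∈ I, c ≤ a)
    with hM
  have hmem : ∀ I ⊆ Q, Indep H S I → I.card = J.card → ∃ c ∈ I, c ∈ M := by
    intro I h1 h2 h3
    have hI : I.Nonempty := card_pos.1 (by omega)
    exact ⟨I.min' hI, min'_mem _ _, mem_filter.2 ⟨h1 (min'_mem _ _), I, h1, h2, h3,
      min'_mem _ _, fun a ha => min'_le _ _ ha⟩⟩
  have hMQ : M ⊆ Q := filter_subset _ _
  have hlt : ∀ a ∈ M, ∀ b ∈ M, a < b → ∃ y ∈ S, a ∈ H y ∧ b ∈ H y := by
    intro a ha b hb hab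
    by_contra hn
    push Not at hn
    obtain ⟨hbQ, I, i1, i2, i3, i4, i5⟩ := mem_filter.1 hb
    have haI : a ∉ I := fun hh => absurd (i5 a hh) (not_le.2 hab)
    have key : ∀ y ∈ S, ∀ c ∈ I, a ∈ H y → c ∉ H y := by
      intro y hy c hc' hay hcy
      rcases (i5 c hc').eq_or_lt with rfl | hbc
      · exact hn y hy hay hcy
      · obtain ⟨B, hB, hbB⟩ := hc b hbQ
        rcases h.aba (hQ (hMQ ha)) (hQ hbQ) (hQ (i1 hc')) hab hbc hay (hn y hy hay) hcy hbB
          with h1 | h1
        · exact hn B hB h1 hbB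
        · exact hbc.ne (i2 B hB b i4 c hc' hbB h1)
    have := hmax' (insert a I) (insert_subset (hMQ ha) i1) (by
      intro y hy c hc' d hd hcy hdy
      rcases mem_insert.1 hc' with rfl | hc2 <;> rcases mem_insert.1 hd with rfl | hd2
      · rfl
      · exact absurd hdy (key y hy d hd2 hcy)
      · exact absurd hcy (key y hy c hc2 hdy)
      · exact i2 y hy c hc2 d hd2 hcy hdy)
    rw [card_insert_of_notMem haI] at this
    omega
  obtain ⟨q, hq, hb, ⟨u, hu, hqu⟩, w, hw, hqw⟩ := h.cover S M (hMQ.trans hQ)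
    (by obtain ⟨c, -, hc⟩ := hmem J hJ1 hJ2 rfl; exact ⟨c, hc⟩) (by
      intro a ha b hb
      rcases lt_trichotomy a b with hab | rfl | hab
      · exact hlt a ha b hb hab
      · obtain ⟨y, hy, h1⟩ := hc a (hMQ ha); exact ⟨y, hy, h1, h1⟩
      · obtain ⟨y, hy, h1, h2⟩ := hlt b hb a ha hab; exact ⟨y, hy, h2, h1⟩)
  have fin : ∀ r w : Y, (∀ p ∈ M, p ∈ H r ∨ p ∈ H w) → ∀ I ⊆ Q, Indep H S I →
      (∀ a ∈ I, a ∉ H r ∧ a ∉ H w) → ∃ J ⊆ Q, Indep H S J ∧ I.card < J.card := by
    intro r w hrw I i1 i2 i3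
    refine ⟨J, hJ1, hJ2, lt_of_le_of_ne (hmax' I i1 i2) (fun hh => ?_)⟩
    obtain ⟨c, c1, c2⟩ := hmem I i1 i2 hh
    rcases hrw c c2 with h1 | h1
    · exact (i3 c c1).1 h1
    · exact (i3 c c1).2 h1
  refine ⟨q, hMQ hq, fun r _ hr => ?_⟩
  rcases hb r hr with h1 | h1
  · exact ⟨w, hw, hqw q hq le_rfl, fin r w (fun p hp =>
      (le_total p q).imp (h1 p hp) (hqw p hp))⟩
  · exact ⟨u, hu, hqu q hq le_rfl, fin r u (fun p hp =>
      (le_total q p).imp (h1 p hp) (hqu p hp))⟩

/-- every tail in `Q` owns a label containing it -/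
def Owns (H : Y → Finset X) (S : Finset Y) (Q : Finset X) (t : Y → X) : Prop :=
  ∀ y ∈ S, t y ∈ Q → ∃ r ∈ S, t r = t y ∧ t y ∈ H r

theorem BL.e2 [Fintype X] [DecidableEq Y] [Fintype Y] {H : Y → Finset X} {P : Finset X}
    (h : BL H P) (S : Finset Y) (Q : Finset X) (hQ : Q ⊆ P) (t : Y → X) (ho : Owns H S Q t)
    (k : ℕ) (hyp : Hyp H S Q t k) : Acyc k (Br (arcs H S Q) t) := by
  refine e2_abs H S (fun Q t => Q ⊆ P ∧ Owns H S Q t) ?_ ?_ ?_ _ Q t k (Nat.lt_succ_self _)
    ⟨hQ, ho⟩ hyp
  · rintro Q t v ⟨h1, h2⟩ _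
    exact ⟨(erase_subset _ _).trans h1, fun y hy hty => h2 y hy (mem_of_mem_erase hty)⟩
  · rintro Q t v y0 ⟨h1, h2⟩ _ hy0 _ _
    refine ⟨(erase_subset _ _).trans h1, fun y hy hty => ?_⟩
    have key : ∀ z ∈ S, t z ∈ Q.erase v → ∃ r ∈ S, ctr t (v, y0) r = t z ∧ t z ∈ H r := by
      intro z hz htz
      obtain ⟨r, hr, r1, r2⟩ := h2 z hz (mem_of_mem_erase htz)
      refine ⟨r, hr, ?_, r2⟩
      have : t r ≠ v := r1 ▸ (mem_erase.1 htz).1
      rw [← r1]
      simp only [ctr, if_neg this]
    by_cases hh : t y = v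
    · have e : ctr t (v, y0) y = t y0 := by simp only [ctr, if_pos hh]
      rw [e] at hty ⊢
      exact key y0 hy0 hty
    · have e : ctr t (v, y0) y = t y := by simp only [ctr, if_neg hh]
      rw [e] at hty ⊢
      exact key y hy hty
  · rintro Q t ⟨h1, h2⟩ hne _ hc ht
    obtain ⟨q, hq, hg⟩ := h.gc S Q h1 hne hc
    obtain ⟨y, hy, hyq⟩ := ht q hq
    obtain ⟨r, hr, r1, r2⟩ := h2 y hy (hyq ▸ hq)
    rw [hyq] at r1 r2
    obtain ⟨w, hw, hqw, hI⟩ := hg r hr r2
    refine ⟨q, hq, w, hw, hqw, fun K _ hqK hreach I i1 i2 i3 => ?_⟩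
    have hend : t w ∈ K := by
      rcases hreach.cases_tail with h | ⟨c, -, h⟩
      · rw [h]; exact hqK
      · exact h.1
    exact hI I (i1.trans sdiff_subset) i2
      (fun a ha => ⟨i3 r hr (r1 ▸ hqK) a ha, i3 w hw hend a ha⟩)

end Pool.Agent.MP_3b4e7c_co.Up

end MrgPart3

-- marker of a merged file
example : 731051 + 746188 = 731051 + 746188 := rfl
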