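import Pool.Agent.MP_3b4e7c_co.Up.Main

/-! Upper halfplanes have the bottom point property. -/

namespace Pool.Agent.MP_3b4e7c_co.Up

open Finset

theorem bl_of_coords {X : Type*} [LinearOrder X] {Y : Type*} (H : Y → Finset X) (P : Finset X)
    (φ ψ : X → ℝ) (hφ : ∀ x y, x ≤ y → φ x ≤ φ y) (α β : Y → ℝ) (hβ : ∀ r, 0 ≤ β r)
    (hm : ∀ r, ∀ x ∈ P, ∀ y ∈ P, α r * φ x + β r * ψ x ≤ α r * φ y + β r * ψ y →
      x ∈ H r → y ∈ H r) : BL H P := by
  rintro M hM z ⟨p, hp, hpz⟩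
  have hne : M.Nonempty := ⟨p, hp⟩
  rcases (hβ z).eq_or_lt with h0 | h0
  · rcases le_total 0 (α z) with ha | ha
    · have hc := min'_mem M hne
      refine ⟨_, hc, fun hh => hpz (hm z _ (hM hc) p (hM hp) ?_ hh), fun r hr =>
        Or.inl (fun x hx hl => ?_)⟩
      · have := hφ _ _ (min'_le M p hp)
        rw [← h0]; nlinarith
      · rw [le_antisymm hl (min'_le M x hx)]; exact hr
    · have hc := max'_mem M hne
      refine ⟨_, hc, fun hh => hpz (hm z _ (hM hc) p (hM hp) ?_ hh), fun r hr =>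
        Or.inr (fun x hx hl => ?_)⟩
      · have := hφ _ _ (le_max' M p hp)
        rw [← h0]; nlinarith
      · rw [le_antisymm (le_max' M x hx) hl]; exact hr
  · obtain ⟨c, hc, hmin⟩ := exists_min_image M (fun x => α z * φ x + β z * ψ x) hne
    refine ⟨c, hc, fun hh => hpz (hm z c (hM hc) p (hM hp) (hmin p hp) hh), fun r hr => ?_⟩
    have key : ∀ x ∈ M, 0 ≤ (β z * α r - β r * α z) * (φ x - φ c) → x ∈ H r := by
      intro x hx h
      refine hm r c (hM hc) x (hM hx) ?_ hr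
      have h1 := mul_nonneg (hβ r) (sub_nonneg.2 (hmin x hx))
      refine le_of_mul_le_mul_left ?_ h0
      nlinarith
    rcases le_total 0 (β z * α r - β r * α z) with hk | hk
    · exact Or.inr (fun x hx hl => key x hx (mul_nonneg hk (sub_nonneg.2 (hφ _ _ hl))))
    · exact Or.inl (fun x hx hl => key x hx
        (mul_nonneg_of_nonpos_of_nonpos hk (sub_nonpos.2 (hφ _ _ hl))))

theorem main_free {X : Type*} [LinearOrder X] [Fintype X] {n : ℕ} {P : Finset X}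
    {H : Fin n → Finset X} (hB : BL H P)
    (hD : ∀ W ⊆ P, 2 ≤ W.card → ∀ T : Finset (Fin n),
      (∀ i, ∀ x ∈ W, ∀ y ∈ W, x ≠ y → x ∈ H i → y ∈ H i → i ∈ T) → W.card ≤ T.card)
    (hP : P.card = n) (hn : 2 ≤ n) (hsub : ∀ y, H y ⊆ P) (o : X) (ho : o ∉ P) :
    ∃ (p : Fin n → X) (σ : Equiv.Perm (Fin n)), Function.Injective p ∧ (∀ k, p k ∈ P) ∧
      ∀ k, p k ∈ H (σ k) ∧ p (finRotate n k) ∈ H (σ k) :=
  main hB (fun W hW h2 => hD W hW h2 _ (fun _ x hx y hy hne h3 h4 => mem_filter.2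
    ⟨mem_univ _, one_lt_card.2 ⟨x, mem_inter.2 ⟨hx, h3⟩, y, mem_inter.2 ⟨hy, h4⟩, hne⟩⟩))
    hP hn hsub o ho

end Pool.Agent.MP_3b4e7c_co.Up
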